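import Pool.Agent.CHK.Main
import Pool.Agent.CHK.Member

set_option autoImplicit false

/-! Mate in 2 of generalised checkers is NP-complete: a polynomial-time reduction from the
satisfiability of planar monotone formulas, and a polynomial-time verifier. -/

namespace Pool.Agent.Results.MP_27ca0b_lc.NPComplete

open Pool.Agent.CHK

/-- First part (hardness): there is a function computable in polynomial time which maps every linear
layout of a planar monotone formula to a position of generalised checkers such that the side to
move has a mate in 2 if and only if the formula is satisfiable (for both conventions about the
crowning of a man in a capture sequence).

Second part (membership in NP): there are a polynomial-time verifier `V` and a polynomial `q` such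
that in every position the side to move has a mate in 2 (American rule: a capture sequence ends when
a man is crowned) if and only if `V` accepts the code of the position followed by some certificate
of length at most `q N`. -/
theorem result :
    (∃ f : Lay → Pos, Nonempty (Turing.TM2ComputableInPolyTime encLay encPos f) ∧
      ∀ (l : Lay) (stop : Bool), MateIn2 (f l).N stop (f l).side (f l).board ↔ l.Sat) ∧
    ∃ (V : List Bool → Bool) (q : Polynomial ℕ),
      Nonempty (Turing.TM2ComputableInPolyTime (id : List Bool → List Bool)
        (fun b : Bool => [b]) V) ∧
      ∀ p : Pos, MateIn2 p.N true p.side p.board ↔
        ∃ c : List Bool, c.length ≤ q.eval p.N ∧ V (encPos p ++ c) = true :=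
  ⟨main, mate_np⟩

end Pool.Agent.Results.MP_27ca0b_lc.NPComplete
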